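import Pool.Agent.K9h82.OC.AlexMain

/-!
# Labelled oriented trees whose initial graph has several cycles

Definitions (`Pool.Agent.K9h82.HT.Flt`, `Pool.Agent.K9h82.UC.Red`, `Pool.Agent.K9h82.OC.AlexDef`, and
`Pool.Agent.TH625.LOG.Core`, `.Tree`, `.LI`, `.Main`, `Pool.Agent.N819.LT.Defs` of the starting library):

* `LOG V E`: a labelled oriented graph with vertices `V` and edges `E`, the edge `e` runs from `ini e` to
  `ter e` and has the label `lab e`, an arbitrary vertex; `L.rel e = x_ini x_lab x_ter⁻¹ x_lab⁻¹`; `L.G`
  is the group with generators `V` and relators `L.rel e`, the fundamental group of the 2-complex `K(L)`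
  with one vertex, 1-cells `V` and 2-cells `E`; `L.gen v` is the generator `x_v`; `L.Conn`: the graph is
  connected (it is a tree if it has moreover one vertex more than edges);
* `sub L S'`: only the 2-cells of `S' ⊆ E` are kept (a subcomplex of `K(L)` with all the 1-cells);
  `bdry` is the boundary operator `C₂ → C₁` of the universal covering (its kernel is `π₂`);
* `LocInd B`: every nontrivial finitely generated subgroup of `B` maps onto the integers;
* the initial graph of `L` has the vertices `V` and the edges `{ini e, lab e}`; `Cycle L z`: the integral
  1-chain `z` of the initial graph is a cycle (it has no boundary);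
* `crossing L κ k z`: the element `∑ e, z e * ([κ (ter e) = k] - [κ (lab e) = k]) * x_(lab e)` of the
  integral group ring of `L.G`, given by its coefficients;
* `Flt L β κ`: the components of the initial graph are numbered by `κ` from `0` to `β`, and for
  `k = 1, …, β` there is a cycle `z` of the initial graph such that the labels and the terminal vertices
  of its edges lie in the components `0, …, k` and such that `crossing L κ k z ≠ 0`;
* `revL L`: all edges of `L` are reversed; its initial graph is the terminal graph of `L`;
* `alexZ L r σ`: the Alexander matrix of `L` over `ℤ[t]` (the row of the edge `e` consists of the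
  abelianised Fox derivatives of `L.rel e`: `1` at `ini e`, `t - 1` at `lab e` and `-t` at `ter e`, added
  up if these vertices coincide) with one more row, the unit vector of `r`; the columns are numbered by
  `σ`. If `L` is a tree, its determinant `Δ` is the Alexander polynomial of the group of `L`, up to
  sign and a power of `t`;
* `L.ContractibleWith v`: `K(L) ∪ f`, `f` a 2-cell attached along the 1-cell `v`, is contractible.

If `L` is a tree and its initial graph has `β + 1` components, then the initial graph has `β`
independent cycles. For `β = 0` the condition `Flt` is empty (the case of Howie). For `β = 1` there is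
one cycle, and the condition is that its crossing element with the other component is not `0`.
-/

set_option autoImplicit false

namespace Pool.Agent.Results.MP_6de9fc_gt.FilteredCycles

open Pool.Agent.TH625.LOG Pool.Agent.N819.LT Pool.Agent.K9h82.HT Pool.Agent.K9h82.UC
open Pool.Agent.K9h82.OC

/-- (1) Let `L` be a labelled oriented tree such that the cycles of the initial graph, or of the
terminal graph, cross its components in the triangular way described by `Flt`. Then all subcomplexes of
`K(L)` (with all the 1-cells) are aspherical and their fundamental groups are locally indicable.
(2) This condition is satisfied, with at most one cycle, if `L` has `n` vertices and the degree of the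
Alexander polynomial of its group (the highest minus the lowest exponent of `Δ`) is at least `n - 4`;
more precisely if the lowest exponent of `Δ` is at most `1` or the highest one is at least `n - 2` (it
is at most `n - 1`). (3) `K(L)` is a subcomplex of a contractible 2-complex with one more 2-cell. -/
theorem result (V E : Type) [Fintype V] [Fintype E] [DecidableEq V] [DecidableEq E] (L : LOG V E)
    (hL : L.Conn) (hcard : Fintype.card V = Fintype.card E + 1) :
    ((∃ (β : ℕ) (κ : V → ℕ), Flt L β κ ∨ Flt (revL L) β κ) →
      ∀ S' : Set E, LocInd (sub L S').G ∧ ∀ c, (sub L S').bdry c = 0 → c = 0) ∧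
    (∀ (r : V) (σ : V ≃ Option E),
      (Fintype.card V ≤ ((alexZ L r σ).det.natDegree - (alexZ L r σ).det.natTrailingDegree) + 4 ∨
        (alexZ L r σ).det.natTrailingDegree ≤ 1 ∨
        Fintype.card V ≤ (alexZ L r σ).det.natDegree + 2) →
      ∃ (β : ℕ) (κ : V → ℕ), Flt L β κ ∨ Flt (revL L) β κ) ∧
    ∀ v : V, L.ContractibleWith v :=
  ⟨main L hL hcard, fun r σ h => by
      rcases h with h | h | h
      · exact flt_of_degree L hL hcard r σ h
      · exact flt_of_alex L hL r σ (Or.inl h)
      · exact flt_of_alex L hL r σ (Or.inr (by omega)),
    fun v => contractibleWith L hL hcard v⟩

end Pool.Agent.Results.MP_6de9fc_gt.FilteredCycles
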