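import Pool.Agent.K9h82.OC.Ori

/-!
# Every labelled tree has many orientations for which all subcomplexes are aspherical

Definitions (`Pool.Agent.N819.LT.Defs` and `Pool.Agent.TH625.LOG.Core`, `.LI`, `.Main` of the starting
library):

* `LTree V E`: a finite labelled tree with vertices `V` and edges `E` (ends `a e`, `b e`; label `lab e`,
  an arbitrary vertex; the graph is connected and `|V| = |E| + 1`);
* `x.log o` for `o : E → Bool`: the labelled oriented tree given by the orientation `o`: the edge `e` runs
  from `a e` to `b e` if `o e = false`, and from `b e` to `a e` if `o e = true`;
* `LOG V E`: a labelled oriented graph, the edge `e` runs from `ini e` to `ter e` and has the label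
  `lab e`; `L.rel e = x_ini x_lab x_ter⁻¹ x_lab⁻¹`; `L.G` is the group with generators `V` and relators
  `L.rel e`, the fundamental group of the 2-complex `K(L)` with one vertex, 1-cells `V` and 2-cells `E`;
* `sub L S`: only the 2-cells of `S ⊆ E` are kept (a subcomplex of `K(L)` with all the 1-cells);
  `bdry` is the boundary operator `C₂ → C₁` of the universal covering (its kernel is `π₂`);
* `LocInd B`: every nontrivial finitely generated subgroup of `B` maps onto the integers;
* `L.ContractibleWith v`: `K(L) ∪ f`, `f` a 2-cell attached along the 1-cell `v`, is contractible.

Proof. Let `f o` be `1` if the initial graph (vertices `V`, edges `{ini e, lab e}`) of `x.log o` is a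
tree and `0` otherwise. If `f o = 1`, or if `∑ e, f (o with e reversed)` is odd, then `o` has the property:
in the second case the initial graph has exactly one cycle, and the number of the edges of the cycle
with a terminal vertex in the other component is odd, so that `FilteredCycles` can be used. The number
of the `o` with `f o = 1` is odd (`OddlyManyOrientations` of the starting library). For every function
`f` on the vertices of the cube of dimension `m` with an odd number of ones there are at least `m + 1`
vertices `o` such that `f o` or the sum of `f` over the neighbours of `o` is odd, and the union of the set
of these vertices with the set of the opposite vertices has at least `min (2 (m + 1)) (2 ^ m)` elements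
(induction on `m`).
-/

set_option autoImplicit false

namespace Pool.Agent.Results.MP_6de9fc_gt.ManyOrientations

open Pool.Agent.TH625.LOG Pool.Agent.N819.LT

/-- Let `x` be a labelled tree with `n` vertices. For at least `min (2 n) (2 ^ (n - 1))` of the
`2 ^ (n - 1)` orientations of its edges all subcomplexes of the 2-complex (with all the 1-cells) are
aspherical and have locally indicable fundamental groups. For every orientation the 2-complex is a
subcomplex of a contractible 2-complex with one more 2-cell. -/
theorem result (V E : Type) [Fintype V] [Fintype E] [DecidableEq V] (x : LTree V E) :
    min (2 * Fintype.card V) (2 ^ Fintype.card E) ≤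
      {o : E → Bool | ∀ S : Set E, LocInd (sub (x.log o) S).G ∧
        ∀ c, (sub (x.log o) S).bdry c = 0 → c = 0}.ncard ∧
    ∀ (o : E → Bool) (v : V), (x.log o).ContractibleWith v :=
  ⟨Pool.Agent.K9h82.OC.many x, fun o v =>
    contractibleWith (x.log o) (Pool.Agent.K9h82.OC.conn_log x o) x.card v⟩

end Pool.Agent.Results.MP_6de9fc_gt.ManyOrientations
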