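import Pool.Agent.K9h35.WA.Main

/-!
# Asphericity of subcomplexes of contractible 2-complexes and components of half-spaces

Definitions (`Pool.Agent.R655.LI.Defs`, `.Asph` of the starting library, `Pool.Agent.K9h35.WA.Lev`,
`.Main`):

* `Cx`: a 2-complex with one vertex, 1-cells `V`, 2-cells `R`, attaching words `r : R → FreeGroup V`;
  `L.Pi` its fundamental group; `L.Contractible`: `π₁(L) = 1` and the integral boundary operator
  `C₂ → C₁` is injective; `L.IsFin`: finitely many cells; `Sub L K`: `L` is a subcomplex of `K`;
* `Asph L`: the boundary operator `C₂ → C₁` of the universal covering of `L` is injective, i.e.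
  `π₂(L) = 0`;
* `b1 L`: the rank of `H₁(L)`, the cokernel of the cellular boundary operator `C₂ → C₁` of `L`;
* `gen L v`: the element of `π₁(L)` given by the 1-cell `v`;
* for an action of `π₁(L)` on a totally ordered set `X` and `x : X`: a vertex `g` of the Cayley graph
  (the 1-skeleton of the universal covering) is above `x` if `x < g • x`; `Joined L x a b`: `a` and `b`
  are joined by a path in the Cayley graph all of whose vertices are above `x` (or `a = b`);
  `asc L x v`: if the 1-cell `v` moves `x`, this is the one of the two neighbours `v`, `v⁻¹` of the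
  vertex `1` which is above `x`.
-/

set_option autoImplicit false

namespace Pool.Agent.Results.MP_6de9fc_gt.OrderedActions

open Pool.Agent.R655.LI Pool.Agent.K9h35.WA

/-- The set `E` of 1-cells spans the half-space above `x`: it contains a 1-cell `t` which moves `x`,
the neighbours of `1` above `x` are joined in the half-space to those given by `E`, and for the
1-cells `v ∉ E` which fix `x` the vertices `v t^(±1)` and `t^(±1)` are joined in the half-space. -/
def Spans (L : Cx) {X : Type} [MulAction L.Pi X] [LinearOrder X] (x : X) (E : Set L.V) : Prop :=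
  ∃ t ∈ E, gen L t • x ≠ x ∧
    (∀ v, gen L v • x ≠ x → ∃ s ∈ E, gen L s • x ≠ x ∧ Joined L x (asc L x v) (asc L x s)) ∧
    ∀ v, v ∉ E → gen L v • x = x → Joined L x (gen L v * asc L x t) (asc L x t)

/-- Let `L` be a finite 2-complex with one vertex whose fundamental group acts on a totally ordered
set `X` by order preserving maps, and let the set `E` of 1-cells span the half-space above a point `x`.
Then at most as many 1-cells are not in `E` as there are 2-cells, and if these numbers are equal
then `L` is aspherical. If moreover `L` is a subcomplex of a contractible 2-complex `K`, then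
`b₁(L) ≤ |E|`, and `L` is aspherical if `b₁(L) = |E|`. -/
theorem result (L : Cx) (hL : L.IsFin) (X : Type) [MulAction L.Pi X] [LinearOrder X]
    (hX : ∀ (g : L.Pi) (a b : X), a ≤ b → g • a ≤ g • b) (x : X) (E : Set L.V) (hE : Spans L x E) :
    Eᶜ.ncard ≤ Nat.card L.R ∧ (Eᶜ.ncard = Nat.card L.R → Asph L) ∧
      ∀ (K : Cx) (_ : Sub L K), K.Contractible →
        b1 L ≤ E.ncard ∧ (b1 L = E.ncard → Asph L) := by
  classical
  have := hL.1
  have := hL.2
  have : Fintype L.V := Fintype.ofFinite _
  have : Fintype L.R := Fintype.ofFinite _
  obtain ⟨t, htE, ht, h1, h2⟩ := hE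
  have h := main L hX x E.toFinset t (Set.mem_toFinset.2 htE) ht
    (fun v hv => by
      obtain ⟨s, hs, h⟩ := h1 v hv
      exact ⟨s, Set.mem_toFinset.2 hs, h⟩)
    (fun v hv => h2 v (fun h => hv (Set.mem_toFinset.2 h)))
  rw [← Nat.card_eq_fintype_card, ← Nat.card_eq_fintype_card, ← Set.ncard_eq_toFinset_card'] at h
  have h3 := Set.ncard_add_ncard_compl E
  refine ⟨by omega, fun h4 => h.2 (by omega), ?_⟩
  intro K s hK
  have h5 := b1_eq L (bdry_inj s hK)
  rw [← Nat.card_eq_fintype_card, ← Nat.card_eq_fintype_card] at h5
  exact ⟨by omega, fun h6 => h.2 (by omega)⟩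

end Pool.Agent.Results.MP_6de9fc_gt.OrderedActions
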