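import Pool.Agent.K9h82.LW.Fin

/-!
# Ordered actions, metabelian weights and the asphericity of subcomplexes

Definitions (`Pool.Agent.K9h82.LW.Core`, `.Main`, `.Fld`, `.Fin`, and `Pool.Agent.TH625.LOG.Core`, `.Main`,
`Pool.Agent.N819.LT.Defs`, `Pool.Agent.N819.UD.Stm` of the starting library):

* `LOG V E`: a labelled oriented graph with vertices `V` and edges `E`, the edge `e` runs from `ini e` to
  `ter e` and has the label `lab e`, an arbitrary vertex; `L.rel e = x_ini x_lab x_ter⁻¹ x_lab⁻¹`; `L.G`
  is the group with generators `V` and relators `L.rel e`, the fundamental group of the 2-complex `K(L)`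
  with one vertex, 1-cells `V` and 2-cells `E`; `L.gen v` is the generator `x_v`; `L.Conn`: the graph is
  connected (it is a tree if it has moreover one vertex more than edges);
* `sub L S'`: only the 2-cells of `S' ⊆ E` are kept; `AllSub L`: for all `S'` the boundary operator
  `C₂ → C₁` of the universal covering of `K(sub L S')` is injective, that is, all subcomplexes are
  aspherical;
* `OrderTest k L p q x X ρ` for `p = ini`, `q = ter`, `x_v = L.gen v` (initial version) and for `p = ter`,
  `q = ini`, `x_v = (L.gen v)⁻¹` (terminal version), for a field `k` and an action `ρ` of `L.G` on the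
  linearly ordered set `X` by order automorphisms. Let `Γ` be the graph on `V` with the edges
  `{p e, lab e}`. There are finitely many functions `z_i : E → k` whose span contains the cycle space of
  `Γ` (`SpanCyc`), functions `a_i : V → k` which are constant on the components of `Γ`, vertices `v_i` and
  points `h_i` of `X`, such that the number `cf` for `z = z_i`, `a = a_i`, `v = v_i`, where
  `cf = ∑_{lab e = v} z(e) (a(lab e) - a(q e))`, is not zero, and such that
  `h_i < x_{v_i} x_u⁻¹ h_j` for all other pairs `(j, u)` for which `cf` does not vanish for `z = z_j`,
  `a = a_i`, `v = u`;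
* `Dec p q lab S`: `S` is a spanning decomposition: the edges `{p e, lab e}`, `e ∈ S`, and `{q e, lab e}`,
  `e ∉ S`, form a connected graph (`Mix`; a tree), and the graph of the edges `{p e, lab e}`, `e ∈ S`, has
  the same components as the graph of the edges `{p e, lab e}`, `e : E` (`Spans`);
* `wt lab s S`: the sum of the `s (lab e)` over the edges `e ∉ S`;
* `UniqueMin p q lab s`: exactly one spanning decomposition has the smallest weight `wt lab s`;
* `Vertex p q lab s`: the weight of one spanning decomposition does not lie in the convex hull of the
  weights of the other ones;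
* `IsCol L F`: `F (l+1) (ini e) + F l (lab e) = F (l+1) (lab e) + F l (ter e)` for all `l : ℤ`, `e : E`;
* `L.ContractibleWith v`: `K(L) ∪ f` is contractible, where the 2-cell `f` is attached along the
  1-cell `v`.
-/

set_option autoImplicit false

namespace Pool.Agent.Results.MP_6de9fc_gt.WeightedDecomposition

open Pool.Agent.TH625.LOG Pool.Agent.K9h82.LW

/-- (1) If a finite labelled oriented graph `L` passes the order test for one field and one ordered
action of its group, in the initial or in the terminal version, then all subcomplexes of `K(L)` are
aspherical. (2) Let `L` be a labelled oriented tree and let `F` be an Alexander colouring, varying with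
the degree, with values in an ordered abelian group. If exactly one spanning decomposition has the
smallest weight `∑_{e ∉ S} F 0 (lab e)`, or if this holds after the exchange of the initial and the
terminal vertices, then all subcomplexes of `K(L)` are aspherical. (3) The same holds for a colouring
`s` with `τ s(ini) + s(lab) = τ s(lab) + s(ter)` in a real normed space with a linear automorphism `τ` if
the polytope spanned by the weights `∑_{e ∉ S} s (lab e)` of the spanning decompositions has a vertex
which is the weight of only one of them. (4) For trees `K(L)` is a subcomplex of a contractible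
2-complex with one more 2-cell. -/
theorem result (V E : Type) [Fintype V] [Fintype E] [DecidableEq V] [DecidableEq E] (L : LOG V E) :
    (∀ (k X : Type) [Field k] [LinearOrder X] (ρ : L.G →* (X ≃o X)),
      (OrderTest k L L.ini L.ter L.gen X ρ ∨
        OrderTest k L L.ter L.ini (fun v => (L.gen v)⁻¹) X ρ) → AllSub L) ∧
    (L.Conn → Fintype.card V = Fintype.card E + 1 →
      (∀ (Λ : Type) [AddCommGroup Λ] [LinearOrder Λ] [IsOrderedAddMonoid Λ] (F : ℤ → V → Λ),
        IsCol L F → (UniqueMin L.ini L.ter L.lab (F 0) ∨ UniqueMin L.ter L.ini L.lab (F 0)) →
          AllSub L) ∧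
      (∀ (M : Type) [NormedAddCommGroup M] [NormedSpace ℝ M] (τ : M ≃ₗ[ℝ] M) (s : V → M),
        (∀ e, τ (s (L.ini e)) + s (L.lab e) = τ (s (L.lab e)) + s (L.ter e)) →
        (Vertex L.ini L.ter L.lab s ∨ Vertex L.ter L.ini L.lab s) → AllSub L) ∧
      ∀ v : V, L.ContractibleWith v) :=
  ⟨fun k X _ _ ρ h => h.elim (order_ini k L X ρ) (order_ter k L X ρ),
    fun hL hcard => ⟨fun Λ _ _ _ F hF h => weight L hcard Λ F hF h,
      fun M _ _ τ s hs h => hull L hcard M τ s hs h,
      fun v => contractibleWith L hL hcard v⟩⟩

end Pool.Agent.Results.MP_6de9fc_gt.WeightedDecomposition
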